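import Pool.Agent.X14.Bala

/-!
# Supercongruences for sums of Catalan times second-order Catalan numbers
-/

set_option autoImplicit false

namespace Pool.Agent.Results.MP_77f5f4_nt.CatalanSums

open Finset

/-- The Catalan number `C_k = binom(2k, k) / (k + 1)`. -/
def cat (k : ℕ) : ℚ := ((2 * k).choose k : ℚ) / (k + 1)

/-- The second-order Catalan number of the first kind, `binom(3k, k) / (2k + 1)`. -/
def cat1 (k : ℕ) : ℚ := ((3 * k).choose k : ℚ) / (2 * k + 1)

/-- The second-order Catalan number of the second kind, `2 binom(3k, k) / (k + 1)`. -/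
def cat2 (k : ℕ) : ℚ := 2 * ((3 * k).choose k : ℚ) / (k + 1)

/-- `x ≡ y (mod p^m)` in the ring of rational numbers with denominator prime to `p`. -/
def CongP (p m : ℕ) (x y : ℚ) : Prop := ∃ r : ℚ, Nat.Coprime r.den p ∧ x - y = (p : ℚ) ^ m * r

/-- The Legendre symbol `(p/3)`, for `p` prime to `3`. -/
def leg3 (p : ℕ) : ℚ := if p % 3 = 1 then 1 else -1

open Pool.Agent.H434R2 Pool.Agent.H434R2.PO Pool.Agent.X14

/-- `binom(a, k) binom(-1-a, k)` -/
def u (a : ℚ) (k : ℕ) : ℚ := ∏ j ∈ range k, (-((a - j) * (a + 1 + j)) / ((j : ℚ) + 1) ^ 2)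

lemma u_symm (a : ℚ) (k : ℕ) : u (-1 - a) k = u a k := by
  unfold u
  apply prod_congr rfl
  intro j _
  congr 1
  ring

lemma binom_eq (k : ℕ) : ((2 * k).choose k : ℚ) * ((3 * k).choose k : ℚ) / 27 ^ k = u (-1 / 3) k := by
  induction k with
  | zero => simp [u]
  | succ k ih =>
    have h1 : ((2 * (k + 1)).choose (k + 1) : ℚ) * ((3 * (k + 1)).choose (k + 1) : ℚ) * ((k : ℚ) + 1) ^ 3 =
        ((2 * k).choose k : ℚ) * ((3 * k).choose k : ℚ) * ((3 * k + 1) * (3 * k + 2) * (3 * k + 3)) := by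
      have f : ∀ k : ℕ, (((2 * k).choose k * (3 * k).choose k * (k.factorial) ^ 3 : ℕ)) = (3 * k).factorial := by
        intro k
        have a1 := Nat.choose_mul_factorial_mul_factorial (show k ≤ 2 * k by omega)
        have a2 := Nat.choose_mul_factorial_mul_factorial (show k ≤ 3 * k by omega)
        rw [show 2 * k - k = k by omega] at a1
        rw [show 3 * k - k = 2 * k by omega, ← a1] at a2
        rw [← a2]; ring
      have f1 := f k
      have f2 := f (k + 1)
      rw [show 3 * (k + 1) = 3 * k + 2 + 1 by ring, Nat.factorial_succ, show 3 * k + 2 = 3 * k + 1 + 1 by ring,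
        Nat.factorial_succ, Nat.factorial_succ, Nat.factorial_succ, ← f1] at f2
      have hk : ((k.factorial : ℕ) : ℚ) ≠ 0 := by exact_mod_cast Nat.factorial_ne_zero k
      have f3 : (((2 * (k + 1)).choose (k + 1) * (3 * k + 1 + 1 + 1).choose (k + 1) * ((k + 1) * k.factorial) ^ 3 : ℕ) : ℚ) =
        (((3 * k + 1 + 1 + 1) * ((3 * k + 1 + 1) * ((3 * k + 1) * ((2 * k).choose k * (3 * k).choose k * k.factorial ^ 3))) : ℕ) : ℚ) := by
        exact_mod_cast f2
      push_cast at f3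
      rw [show 3 * (k + 1) = 3 * k + 1 + 1 + 1 by ring]
      apply mul_right_cancel₀ (pow_ne_zero 3 hk)
      linear_combination f3
    unfold u at ih ⊢
    rw [prod_range_succ, ← ih, pow_succ]
    have hk : ((k : ℚ) + 1) ≠ 0 := by positivity
    have h2 : ((2 * (k + 1)).choose (k + 1) : ℚ) * ((3 * (k + 1)).choose (k + 1) : ℚ) =
      ((2 * k).choose k : ℚ) * ((3 * k).choose k : ℚ) * ((3 * k + 1) * (3 * k + 2) * (3 * k + 3)) / ((k : ℚ) + 1) ^ 3 := by
      rw [eq_div_iff (by positivity)]; exact h1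
    rw [h2]
    field_simp
    ring

lemma u_succ (a : ℚ) (k : ℕ) : u a (k + 1) = u a k * (-((a - k) * (a + 1 + k)) / ((k : ℚ) + 1) ^ 2) := by
  unfold u; rw [prod_range_succ]

/-- the sum with weight `1/(k+1)` -/
lemma sum_one (N : ℕ) : ∑ k ∈ range N, u (-1 / 3) k / ((k : ℚ) + 1) = 9 / 2 * N * u (-1 / 3) N := by
  induction N with
  | zero => simp
  | succ N ih =>
    rw [sum_range_succ, ih, u_succ]
    have hk : ((N : ℚ) + 1) ≠ 0 := by positivity
    push_cast
    field_simp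
    ring

/-- the sum with weight `1/(k+1)^2` -/
lemma sum_two (N : ℕ) : ∑ k ∈ range N, u (-1 / 3) k / ((k : ℚ) + 1) ^ 2 =
    -(9 / 2) * (1 - u (-1 / 3) N - 9 / 2 * N * u (-1 / 3) N) := by
  induction N with
  | zero => simp [u]
  | succ N ih =>
    rw [sum_range_succ, ih, u_succ]
    have hk : ((N : ℚ) + 1) ≠ 0 := by positivity
    push_cast
    field_simp
    ring

/-- the boundary term -/
def s (a : ℚ) (K : ℕ) : ℚ := ∏ j ∈ range K, (-((a - j) * (a + 2 + j)) / ((j : ℚ) + 1) ^ 2)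

lemma s_succ (a : ℚ) (k : ℕ) : s a (k + 1) = s a k * (-((a - k) * (a + 2 + k)) / ((k : ℚ) + 1) ^ 2) := by
  unfold s; rw [prod_range_succ]

lemma u_s {a : ℚ} (K : ℕ) : u a K * (a + 1 + K) = s a K * (a + 1) := by
  induction K with
  | zero => simp [u, s]
  | succ K ih =>
    rw [u_succ, s_succ]
    have hk : ((K : ℚ) + 1) ≠ 0 := by positivity
    push_cast
    have : u a K * (-((a - K) * (a + 1 + K)) / ((K : ℚ) + 1) ^ 2) * (a + 1 + (K + 1)) =
      (u a K * (a + 1 + K)) * (-((a - K) * (a + 2 + K)) / ((K : ℚ) + 1) ^ 2) := by ring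
    rw [this, ih]; ring

lemma u_s' {a : ℚ} (K : ℕ) : u (a + 1) K * (a + 1 - K) = s a K * (a + 1) := by
  induction K with
  | zero => simp [u, s]
  | succ K ih =>
    rw [u_succ, s_succ]
    have hk : ((K : ℚ) + 1) ≠ 0 := by positivity
    push_cast
    have : u (a + 1) K * (-((a + 1 - K) * (a + 1 + 1 + K)) / ((K : ℚ) + 1) ^ 2) * (a + 1 - (K + 1)) =
      (u (a + 1) K * (a + 1 - K)) * (-((a - K) * (a + 2 + K)) / ((K : ℚ) + 1) ^ 2) := by ring
    rw [this, ih]; ring

/-- the sum with weight `1/(2k+1)` -/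
def f (a : ℚ) (N : ℕ) : ℚ := ∑ k ∈ range N, u a k / (2 * (k : ℚ) + 1)

lemma f_rec {a : ℚ} (ha : ∀ z : ℤ, a ≠ z) (K : ℕ) :
    (2 * a + 3) * f (a + 1) (K + 1) - (2 * a + 1) * f a (K + 1) = 2 * s a K := by
  induction K with
  | zero => simp [f, u, s]; ring
  | succ K ih =>
    have n3 : a - K ≠ 0 := by
      intro h
      apply ha K
      push_cast; linarith
    have n4 : a + 2 + K ≠ 0 := by
      intro h
      apply ha (-2 - K)
      push_cast; linarith
    have e1 : u a (K + 1) * (a + 2 + K) = s a (K + 1) * (a + 1) := by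
      have := u_s (a := a) (K + 1)
      push_cast at this
      rw [← this]; ring
    have e2 : u (a + 1) (K + 1) * (a - K) = s a (K + 1) * (a + 1) := by
      have := u_s' (a := a) (K + 1)
      push_cast at this
      rw [← this]; ring
    have e3 : s a K * (-((a - K) * (a + 2 + K))) = s a (K + 1) * ((K : ℚ) + 1) ^ 2 := by
      rw [s_succ]
      have hk : ((K : ℚ) + 1) ≠ 0 := by positivity
      field_simp
    have h5 : (2 * a + 3) * (u (a + 1) (K + 1) / (2 * ((K + 1 : ℕ) : ℚ) + 1)) - (2 * a + 1) * (u a (K + 1) / (2 * ((K + 1 : ℕ) : ℚ) + 1))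
        = 2 * s a (K + 1) - 2 * s a K := by
      have hk : (2 * ((K + 1 : ℕ) : ℚ) + 1) ≠ 0 := by positivity
      have hne : (a - K) * (a + 2 + K) ≠ 0 := mul_ne_zero n3 n4
      have h6 : (2 * a + 3) * u (a + 1) (K + 1) - (2 * a + 1) * u a (K + 1) =
          (2 * s a (K + 1) - 2 * s a K) * (2 * ((K + 1 : ℕ) : ℚ) + 1) := by
        apply mul_right_cancel₀ hne
        push_cast
        linear_combination (2 * a + 3) * (a + 2 + K) * e2 - (2 * a + 1) * (a - K) * e1 - 2 * (2 * ((K : ℚ) + 1) + 1) * e3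
      rw [← mul_div_assoc, ← mul_div_assoc, ← sub_div, h6]
      field_simp
    unfold f at ih ⊢
    rw [sum_range_succ _ (K + 1), sum_range_succ _ (K + 1)]
    linear_combination ih + h5

variable {p : ℕ} [hp : Fact p.Prime]

lemma s_PO {y : ℚ} (hy : PO p 1 y) {i : ℕ} (hi : i + 2 ≤ p) : PO p 2 (s (y + i) (p - 1)) := by
  have e : s (y + i) (p - 1) = (∏ j ∈ range (p - 1), (-(y + i - j))) * (∏ j ∈ range (p - 1), (y + i + 2 + j)) *
      ∏ j ∈ range (p - 1), (1 / ((j : ℚ) + 1) ^ 2) := by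
    unfold s
    rw [← prod_mul_distrib, ← prod_mul_distrib]
    apply prod_congr rfl
    intro j _
    ring
  have hpr : ∀ (F : ℕ → ℚ), (∀ j ∈ range (p - 1), PO p 0 (F j)) → ∀ m ∈ range (p - 1), PO p 1 (F m) →
      PO p 1 (∏ j ∈ range (p - 1), F j) := by
    intro F hF m hm h1
    rw [← mul_prod_erase _ _ hm]
    refine h1.mul0' ?_
    apply Finset.prod_induction _ (fun x => PO p 0 x) (fun a b ha hb => ha.mul0 hb) PO.one
    intro j hj
    exact hF j (mem_of_mem_erase hj)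
  have hi0 := of_nat (p := p) i
  have h1 : PO p 1 (∏ j ∈ range (p - 1), (-(y + i - j))) := by
    apply hpr _ _ i (mem_range.2 (by omega))
    · have : -(y + (i : ℚ) - i) = -y := by ring
      rw [this]; exact hy.neg
    · intro j _
      exact (((hy.mono (by norm_num)).add hi0).sub (of_nat j)).neg
  have h2 : PO p 1 (∏ j ∈ range (p - 1), (y + i + 2 + j)) := by
    apply hpr _ _ (p - 2 - i) (mem_range.2 (by omega))
    · have : y + (i : ℚ) + 2 + ((p - 2 - i : ℕ) : ℚ) = y + p := by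
        rw [Nat.cast_sub (by omega), Nat.cast_sub (by omega)]; push_cast; ring
      rw [this]; exact hy.add p_PO
    · intro j _
      have := of_nat (p := p) 2
      push_cast at this
      exact (((hy.mono (by norm_num)).add hi0).add this).add (of_nat j)
  rw [e]
  refine (h1.mul h2).mul0' ?_
  apply Finset.prod_induction _ (fun x => PO p 0 x) (fun a b ha hb => ha.mul0 hb) PO.one
  intro j hj
  exact inv_succ_pow (mem_range.1 hj) 2

lemma u_small (y : ℚ) (b : ℕ) : u y (b + 1) =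
    -y * (1 / ((b : ℚ) + 1) + y * (1 / ((b : ℚ) + 1) ^ 2)) * ∏ j ∈ range b, (1 - y ^ 2 * (1 / ((j : ℚ) + 1) ^ 2)) := by
  induction b with
  | zero =>
    simp only [u, zero_add, prod_range_one, Nat.cast_zero, range_zero, prod_empty]
    ring
  | succ b ih =>
    rw [u_succ, ih, prod_range_succ]
    have hb : ((b : ℚ) + 1) ≠ 0 := by positivity
    have hb1 : ((b : ℚ) + 1 + 1) ≠ 0 := by positivity
    push_cast
    field_simp
    ring

lemma two_b {b : ℕ} (hb : b < p - 1) : PO p 0 ((p : ℚ) * (1 / (2 * (b : ℚ) + 3))) := by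
  by_cases h : p ∣ 2 * b + 3
  · have : 2 * b + 3 = p := by
      obtain ⟨c, hc⟩ := h
      have : c = 1 := by
        rcases c with _ | _ | c
        · omega
        · rfl
        · exfalso
          have : p * 2 ≤ p * (c + 1 + 1) := Nat.mul_le_mul_left p (by omega)
          omega
      rw [this] at hc; omega
    have e : (2 * (b : ℚ) + 3) = p := by exact_mod_cast this
    rw [e, mul_one_div_cancel (by exact_mod_cast hp.out.ne_zero)]
    exact PO.one
  · have h1 := inv_nat (p := p) h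
    push_cast at h1
    rw [one_div]
    exact (of_nat p).mul0 h1

/-- `Σ_{k<p} 1/(2k+1) ≡ 1/p (mod p)` -/
lemma odd_sum (h2 : p ≠ 2) : PO p 1 (∑ k ∈ range p, 1 / (2 * (k : ℚ) + 1) - 1 / p) := by
  obtain ⟨m, hm⟩ : ∃ m, p = 2 * m + 1 := by
    have := hp.out.eq_two_or_odd
    exact ⟨p / 2, by omega⟩
  have hpq : (p : ℚ) = 2 * m + 1 := by exact_mod_cast hm
  have hmr : m ∈ range p := mem_range.2 (by omega)
  have e : ∑ k ∈ range p, 1 / (2 * (k : ℚ) + 1) - 1 / p = ∑ k ∈ (range p).erase m, 1 / (2 * (k : ℚ) + 1) := by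
    rw [← add_sum_erase _ _ hmr, ← hpq]; ring
  have hr : ∑ k ∈ (range p).erase m, 1 / (2 * (k : ℚ) + 1) = ∑ k ∈ (range p).erase m, 1 / (2 * ((p - 1 - k : ℕ) : ℚ) + 1) := by
    apply Finset.sum_nbij' (fun k => p - 1 - k) (fun k => p - 1 - k)
    · intro k hk
      rw [mem_erase, mem_range] at hk ⊢
      omega
    · intro k hk
      rw [mem_erase, mem_range] at hk ⊢
      omega
    · intro k hk
      rw [mem_erase, mem_range] at hk
      omega
    · intro k hk
      rw [mem_erase, mem_range] at hk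
      omega
    · intro k hk
      rw [mem_erase, mem_range] at hk
      rw [show p - 1 - (p - 1 - k) = k by omega]
  have e2 : ∑ k ∈ (range p).erase m, 1 / (2 * (k : ℚ) + 1) =
      1 / 2 * ∑ k ∈ (range p).erase m, (1 / (2 * (k : ℚ) + 1) + 1 / (2 * ((p - 1 - k : ℕ) : ℚ) + 1)) := by
    rw [sum_add_distrib, ← hr]; ring
  rw [e, e2]
  refine PO.mul0 (half h2) (PO.sum _ _ ?_)
  intro k hk
  rw [mem_erase, mem_range] at hk
  have hc : ((p - 1 - k : ℕ) : ℚ) = (p : ℚ) - 1 - k := by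
    rw [Nat.cast_sub (by omega), Nat.cast_sub (by omega)]; push_cast; ring
  have nd : ∀ j, j < p → j ≠ m → ¬ p ∣ 2 * j + 1 := by
    intro j hj hjm hd
    obtain ⟨c, hc⟩ := hd
    rcases c with _ | _ | c
    · omega
    · omega
    · have : p * 2 ≤ p * (c + 1 + 1) := Nat.mul_le_mul_left p (by omega)
      omega
  have i1 := inv_nat (p := p) (nd k hk.2 hk.1)
  have i2 := inv_nat (p := p) (nd (p - 1 - k) (by omega) (by omega))
  push_cast at i1 i2
  have x1 : (2 * (k : ℚ) + 1) ≠ 0 := by positivity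
  have x2 : (2 * ((p - 1 - k : ℕ) : ℚ) + 1) ≠ 0 := by positivity
  have e3 : 1 / (2 * (k : ℚ) + 1) + 1 / (2 * ((p - 1 - k : ℕ) : ℚ) + 1) =
      2 * p * ((2 * (k : ℚ) + 1)⁻¹ * (2 * ((p - 1 - k : ℕ) : ℚ) + 1)⁻¹) := by
    field_simp
    rw [hc]; ring
  rw [e3]
  have h2' := of_nat (p := p) 2
  push_cast at h2'
  exact (h2'.mul0 p_PO).mul0' (i1.mul0 i2)

/-- the value at `y = O(p)` -/
lemma f_small (h5 : 5 ≤ p) {t : ℚ} (ht : PO p 0 t) :
    PO p 2 ((1 + 2 * ((p : ℚ) * t)) * f ((p : ℚ) * t) p - (1 + 2 * t)) := by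
  set y : ℚ := (p : ℚ) * t with hy
  have hy1 : PO p 1 y := p_PO.mul0' ht
  have hp0 : (p : ℚ) ≠ 0 := by exact_mod_cast hp.out.ne_zero
  have hy2 : PO p 2 (y * y) := hy1.mul hy1
  have hy3 : PO p 3 (y * y * y) := hy2.mul hy1
  have i2 := of_nat (p := p) 2
  have i4 := of_nat (p := p) 4
  push_cast at i2 i4
  set D : ℚ := ∑ b ∈ range (p - 1), 1 / (2 * (b : ℚ) + 3) with hD
  -- the odd sum
  have hD' : PO p 1 (D - (1 / p - 1)) := by
    have h := odd_sum (p := p) (by omega)
    have e : ∑ k ∈ range p, 1 / (2 * (k : ℚ) + 1) = 1 + D := by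
      conv_lhs => rw [show p = (p - 1) + 1 by omega, sum_range_succ']
      rw [hD, add_comm]
      congr 1
      · simp
      · apply sum_congr rfl
        intro b _
        push_cast; ring
    rw [e] at h
    have e2 : D - (1 / p - 1) = 1 + D - 1 / p := by ring
    rw [e2]; exact h
  -- expansion of f
  have hf : f y p = 1 + ∑ b ∈ range (p - 1), u y (b + 1) / (2 * (b : ℚ) + 3) := by
    unfold f
    conv_lhs => rw [show p = (p - 1) + 1 by omega, sum_range_succ']
    rw [add_comm]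
    congr 1
    · simp [u]
    · apply sum_congr rfl
      intro b _
      push_cast; ring
  have h1 : PO p 2 (∑ b ∈ range (p - 1), u y (b + 1) / (2 * (b : ℚ) + 3) -
      ∑ b ∈ range (p - 1), (-y * (1 / ((b : ℚ) + 1) + y * (1 / ((b : ℚ) + 1) ^ 2))) / (2 * (b : ℚ) + 3)) := by
    apply sum_sub
    intro b hb
    have hb' := mem_range.1 hb
    have hP : PO p 2 (∏ j ∈ range b, (1 - y ^ 2 * (1 / ((j : ℚ) + 1) ^ 2)) - 1) := by
      apply prod_one
      intro j hj
      have hj' := mem_range.1 hj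
      have e : 1 - y ^ 2 * (1 / ((j : ℚ) + 1) ^ 2) - 1 = -(y * y * (1 / ((j : ℚ) + 1) ^ 2)) := by ring
      rw [e]
      exact (hy2.mul0' (inv_succ_pow (by omega) 2)).neg
    have e : u y (b + 1) / (2 * (b : ℚ) + 3) - (-y * (1 / ((b : ℚ) + 1) + y * (1 / ((b : ℚ) + 1) ^ 2))) / (2 * (b : ℚ) + 3)
        = -t * ((p : ℚ) * (1 / (2 * (b : ℚ) + 3))) * ((1 / ((b : ℚ) + 1) + y * (1 / ((b : ℚ) + 1) ^ 2)) *
          (∏ j ∈ range b, (1 - y ^ 2 * (1 / ((j : ℚ) + 1) ^ 2)) - 1)) := by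
      rw [u_small, hy]; ring
    rw [e]
    refine PO.mul0 (ht.neg.mul0 (two_b hb')) (PO.mul0 ?_ hP)
    have := inv_succ_pow (p := p) hb' 1
    rw [pow_one] at this
    exact this.add ((hy1.mono (by norm_num)).mul0 (inv_succ_pow hb' 2))
  set H1 : ℚ := ∑ b ∈ range (p - 1), 1 / ((b : ℚ) + 1) ^ 1 with hH1
  set H2 : ℚ := ∑ b ∈ range (p - 1), 1 / ((b : ℚ) + 1) ^ 2 with hH2
  have g1 : PO p 1 H1 := inv_pow_sum (by
    intro h; have := Nat.le_of_dvd (by norm_num) h; omega)
  have g2 : PO p 1 H2 := inv_pow_sum (by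
    intro h; have := Nat.le_of_dvd (by norm_num) h; omega)
  have h3 : ∑ b ∈ range (p - 1), (-y * (1 / ((b : ℚ) + 1) + y * (1 / ((b : ℚ) + 1) ^ 2))) / (2 * (b : ℚ) + 3) =
      -y * (H1 - 2 * D) - y * y * (H2 - 2 * H1 + 4 * D) := by
    rw [hH1, hH2, hD]
    simp only [mul_sum, ← sum_sub_distrib, ← sum_add_distrib]
    apply sum_congr rfl
    intro b _
    have x1 : ((b : ℚ) + 1) ≠ 0 := by positivity
    have x2 : (2 * (b : ℚ) + 3) ≠ 0 := by positivity
    field_simp
    ring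
  rw [h3] at h1
  rw [hf]
  set S : ℚ := ∑ b ∈ range (p - 1), u y (b + 1) / (2 * (b : ℚ) + 3) with hS
  have hyp : y * (1 / p) = t := by rw [hy]; field_simp
  have e : (1 + 2 * y) * (1 + S) - (1 + 2 * t) =
      (1 + 2 * y) * (S - (-y * (H1 - 2 * D) - y * y * (H2 - 2 * H1 + 4 * D))) +
      (-(1 + 2 * y) * (y * H1) - (1 + 2 * y) * (y * y * (H2 - 2 * H1)) + (1 + 2 * y) * (2 * (y * (D - (1 / p - 1))) - 4 * (y * y * (D - (1 / p - 1))))
        + (-(8 * t)) * (y * y) + 8 * (y * y * y)) := by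
    have : t = y * (1 / p) := hyp.symm
    rw [this]; ring
  rw [e]
  have hy0 : PO p 0 y := hy1.mono (by norm_num)
  have c1 : PO p 0 (1 + 2 * y) := PO.one.add (i2.mul0 hy0)
  have i8 := of_nat (p := p) 8
  push_cast at i8
  refine (PO.mul0 c1 h1).add (((((PO.mul0 c1.neg (hy1.mul g1)).sub (PO.mul0 c1 (hy2.mul0' ?_))).add (PO.mul0 c1 (PO.sub (PO.mul0 i2 (hy1.mul hD')) (PO.mul0 i4 (hy2.mul0' (hD'.mono (by norm_num))))))).add (PO.mul0 (i8.mul0 ht).neg hy2)).add (PO.mul0 i8 (hy3.mono (by norm_num))))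
  exact (g2.mono (by norm_num)).sub (i2.mul0 (g1.mono (by norm_num)))

/-- iterating the recurrence -/
lemma f_iter (h5 : 5 ≤ p) (n : ℕ) (hn : n < p) :
    PO p 2 ((1 + 2 * ((p : ℚ) * (-1 / 3) + n)) * f ((p : ℚ) * (-1 / 3) + n) p - 1 / 3) := by
  have h3 : ¬ p ∣ 3 := fun h => by have := Nat.le_of_dvd (by norm_num) h; omega
  have ht : PO p 0 (-1 / 3 : ℚ) := by
    have := (inv_nat (p := p) h3).neg
    push_cast at this
    convert this using 1; norm_num
  induction n with
  | zero =>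
    have := f_small h5 ht
    push_cast
    rw [add_zero]
    convert this using 2; norm_num
  | succ n ih =>
    have ih' := ih (by omega)
    have hnz : ∀ z : ℤ, ((p : ℚ) * (-1 / 3) + n) ≠ z := by
      intro z hz
      have h4 : (p : ℚ) = 3 * (n - z) := by linarith
      have h6 : (p : ℤ) = 3 * (n - z) := by exact_mod_cast h4
      have h7 : (3 : ℤ) ∣ p := ⟨_, h6⟩
      have h8 : 3 ∣ p := by exact_mod_cast h7
      have := (Nat.prime_dvd_prime_iff_eq Nat.prime_three hp.out).1 h8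
      omega
    have hrec := f_rec hnz (p - 1)
    rw [show p - 1 + 1 = p by omega] at hrec
    have hs := s_PO (p := p) (y := (p : ℚ) * (-1 / 3)) (p_PO.mul0' ht) (i := n) (by omega)
    have i2 := of_nat (p := p) 2
    push_cast at i2
    have e : (1 + 2 * ((p : ℚ) * (-1 / 3) + ((n + 1 : ℕ) : ℚ))) * f ((p : ℚ) * (-1 / 3) + ((n + 1 : ℕ) : ℚ)) p - 1 / 3 =
        ((1 + 2 * ((p : ℚ) * (-1 / 3) + n)) * f ((p : ℚ) * (-1 / 3) + n) p - 1 / 3) + 2 * s ((p : ℚ) * (-1 / 3) + n) (p - 1) := by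
      rw [← hrec]
      push_cast
      rw [show (p : ℚ) * (-1 / 3) + ((n : ℚ) + 1) = (p : ℚ) * (-1 / 3) + n + 1 by ring]
      ring
    rw [e]
    exact ih'.add (PO.mul0 i2 hs)

lemma f_symm (a : ℚ) (N : ℕ) : f (-1 - a) N = f a N := by
  unfold f
  apply sum_congr rfl
  intro k _
  rw [u_symm]

lemma f_value (h5 : 5 ≤ p) : PO p 2 (f (-1 / 3) p - leg3 p) := by
  have i3 := of_nat (p := p) 3
  push_cast at i3
  have h3 : p % 3 ≠ 0 := by
    intro h
    have := (Nat.prime_dvd_prime_iff_eq Nat.prime_three hp.out).1 (Nat.dvd_of_mod_eq_zero h)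
    omega
  unfold leg3
  split_ifs with h
  · obtain ⟨n, hn⟩ : ∃ n, p = 3 * n + 1 := ⟨p / 3, by omega⟩
    have h1 := f_iter h5 n (by omega)
    have e : (p : ℚ) * (-1 / 3) + n = -1 / 3 := by
      have : (p : ℚ) = 3 * n + 1 := by exact_mod_cast hn
      rw [this]; ring
    rw [e] at h1
    convert PO.mul0 i3 h1 using 1
    ring
  · obtain ⟨n, hn⟩ : ∃ n, p = 3 * n + 2 := ⟨p / 3, by omega⟩
    have h1 := f_iter h5 n (by omega)
    have e : (p : ℚ) * (-1 / 3) + n = -1 - (-1 / 3) := by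
      have : (p : ℚ) = 3 * n + 2 := by exact_mod_cast hn
      rw [this]; ring
    rw [e, f_symm] at h1
    convert (PO.mul0 i3 h1).neg using 1
    ring

lemma u_p (h5 : 5 ≤ p) : PO p 1 (u (-1 / 3) p - 2 / 9) := by
  have h3 : ¬ p ∣ 27 := by
    intro h
    have h6 : p ∣ 3 := hp.out.dvd_of_dvd_pow (show p ∣ 3 ^ 3 by norm_num; exact h)
    have := Nat.le_of_dvd (by norm_num) h6; omega
  have i27 := inv_nat (p := p) h3
  have n27 := of_nat (p := p) 27
  push_cast at i27 n27
  have hb : ∀ c : ℕ, PO p 1 (((c * p + p).choose p : ℚ) - (c + 1)) := by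
    intro c
    rw [Bala.choose_add]
    have e0 : ∏ i ∈ range p, (1 + Bala.xx (c * p) i) = (∏ i ∈ range (p - 1), (1 + Bala.xx (c * p) i)) * (1 + c) := by
      conv_lhs => rw [show p = (p - 1) + 1 by omega, prod_range_succ]
      congr 1
      · rw [show p - 1 + 1 = p by omega]
      · unfold Bala.xx
        rw [show p - 1 + 1 = p by omega, Nat.cast_sub (by omega)]
        have : (p : ℚ) ≠ 0 := by exact_mod_cast hp.out.ne_zero
        push_cast
        rw [sub_add_cancel, mul_div_assoc, div_self this, mul_one]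
    have h1 : PO p 1 (∏ i ∈ range (p - 1), (1 + Bala.xx (c * p) i) - 1) := by
      apply prod_one
      intro i hi
      have e : 1 + Bala.xx (c * p) i - 1 = (c : ℚ) * (p * ((i : ℚ) + 1)⁻¹) := by
        unfold Bala.xx; push_cast; ring
      rw [e]
      exact PO.mul0 (of_nat c) (p_PO.mul0' (inv_succ (mem_range.1 hi)))
    rw [e0]
    have e : (∏ i ∈ range (p - 1), (1 + Bala.xx (c * p) i)) * (1 + c) - (c + 1) =
        (∏ i ∈ range (p - 1), (1 + Bala.xx (c * p) i) - 1) * (1 + c) := by ring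
    rw [e]
    exact h1.mul0' (PO.one.add (of_nat c))
  have b1 := hb 1
  have b2 := hb 2
  have hf := fermat (p := p) 27 h3
  rw [← binom_eq]
  rw [show 1 * p + p = 2 * p by ring] at b1
  rw [show 2 * p + p = 3 * p by ring] at b2
  push_cast at b1 b2 hf
  have hpow : (27 : ℚ) ^ p = 27 ^ (p - 1) * 27 := by
    rw [← pow_succ]; congr 1; omega
  have hinv : PO p 0 ((27 : ℚ) ^ p)⁻¹ := by
    rw [← inv_pow]; exact i27.pow0 p
  have hne : (27 : ℚ) ^ p ≠ 0 := by positivity
  set X : ℚ := ((2 * p).choose p : ℚ) with hX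
  set Y : ℚ := ((3 * p).choose p : ℚ) with hY
  have e : X * Y / 27 ^ p - 2 / 9 = ((27 : ℚ) ^ p)⁻¹ * ((X - (1 + 1)) * Y + 2 * (Y - (2 + 1)) - 6 * (27 ^ (p - 1) - 1)) := by
    field_simp
    rw [hpow]; ring
  rw [e]
  have i2 := of_nat (p := p) 2
  have i6 := of_nat (p := p) 6
  push_cast at i2 i6
  refine PO.mul0 hinv (((b1.mul0' ?_).add (PO.mul0 i2 b2)).sub (PO.mul0 i6 hf))
  exact of_nat _

/-- **Full positive answer to Q1**: both congruences hold for every prime `p > 3`. -/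
theorem result : ∀ p : ℕ, p.Prime → 3 < p →
    CongP p 2 (∑ k ∈ range p, cat k * cat1 k / 27 ^ k) (2 * leg3 p - p) ∧
    CongP p 1 (∑ k ∈ range p, cat k * cat2 k / 27 ^ k) (-7) := by
  intro p hpp h3
  have hp : Fact p.Prime := ⟨hpp⟩
  have h5 : 5 ≤ p := by
    by_contra hc
    have : p = 4 := by omega
    subst this
    exact absurd hpp (by norm_num)
  have hu := u_p h5
  have h3' : ¬ p ∣ 2 := fun h => by have := Nat.le_of_dvd (by norm_num) h; omega
  have hh := half (p := p) (by omega)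
  have i9 := of_nat (p := p) 9
  have i2 := of_nat (p := p) 2
  push_cast at i9 i2
  have i92 : PO p 0 (9 / 2 : ℚ) := by
    have := i9.mul0 hh
    convert this using 1; norm_num
  constructor
  · apply exists_rep
    have e1 : ∑ k ∈ range p, cat k * cat1 k / 27 ^ k =
        2 * f (-1 / 3) p - 9 / 2 * p * u (-1 / 3) p := by
      rw [← sum_one]
      unfold f
      rw [mul_sum, ← sum_sub_distrib]
      apply sum_congr rfl
      intro k _
      rw [← binom_eq]
      unfold cat cat1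
      have x1 : ((k : ℚ) + 1) ≠ 0 := by positivity
      have x2 : (2 * (k : ℚ) + 1) ≠ 0 := by positivity
      field_simp
      ring
    rw [e1]
    have e2 : 2 * f (-1 / 3) p - 9 / 2 * p * u (-1 / 3) p - (2 * leg3 p - p) =
        2 * (f (-1 / 3) p - leg3 p) - 9 / 2 * (p * (u (-1 / 3) p - 2 / 9)) := by ring
    rw [e2]
    exact (PO.mul0 i2 (f_value h5)).sub (PO.mul0 i92 (p_PO.mul hu))
  · apply exists_rep
    have e1 : ∑ k ∈ range p, cat k * cat2 k / 27 ^ k =
        2 * (-(9 / 2) * (1 - u (-1 / 3) p - 9 / 2 * p * u (-1 / 3) p)) := by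
      rw [← sum_two, mul_sum]
      apply sum_congr rfl
      intro k _
      rw [← binom_eq]
      unfold cat cat2
      have x1 : ((k : ℚ) + 1) ≠ 0 := by positivity
      field_simp
    rw [e1]
    have e2 : 2 * (-(9 / 2) * (1 - u (-1 / 3) p - 9 / 2 * p * u (-1 / 3) p)) - (-7) =
        9 * (u (-1 / 3) p - 2 / 9) + 9 * (9 / 2 * (p * (u (-1 / 3) p - 2 / 9))) + 9 * p := by ring
    rw [e2]
    exact ((PO.mul0 i9 hu).add (PO.mul0 i9 (PO.mul0 i92 ((p_PO.mul hu).mono (by norm_num))))).add (PO.mul0 i9 p_PO)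

end Pool.Agent.Results.MP_77f5f4_nt.CatalanSums
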